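import Pool.Agent.H70.OQ.Targets
import Pool.Agent.H70.PW.Targets

/-!
Module LIM: the limit of the stages.
-/

set_option autoImplicit false

namespace Pool.Agent.H54.PW.LIM

open Finset Filter Pool.Agent.H6.NB Pool.Agent.H70.OQ Pool.Agent.H70.PW

theorem lim_ (h1 : Pool.Agent.H70.OQ.T_BLG) : T_LIM := by
  intro A ι Z Bad hA hZ hex hst
  obtain ⟨σ₀, hσ₀⟩ := hex
  -- one stage
  have step : ∀ (j : ℕ) (st : {p : (List Bool → Bool) × ℕ // ∀ z, Z z p.1}),
      ∃ (n m : ℕ) (σ : List Bool → Bool),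
      st.1.2 < n ∧ j ≤ n ∧
      (∀ w, w.length < n → σ w = st.1.1 w) ∧ (∀ z, Z z σ) ∧
      ∀ σ' O, (∀ w, w.length ≤ m → σ' w = σ w) → Bldg A σ' O → Bad (Nat.unpair j).1 n O := by
    intro j st
    have ev2 : ∀ᶠ n : ℕ in atTop, st.1.2 < n ∧ j ≤ n :=
      (eventually_gt_atTop _).and (eventually_ge_atTop _)
    obtain ⟨n, hn, hn1, hn2⟩ := ((hst (Nat.unpair j).1).and_eventually ev2).exists
    obtain ⟨σ, m, a1, a2, a3⟩ := hn st.1.1 st.2
    exact ⟨n, m, σ, hn1, hn2, a1, a2, a3⟩
  choose nn mm ss p1 p2 p3 p4 p5 using step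
  let st : ℕ → {p : (List Bool → Bool) × ℕ // ∀ z, Z z p.1} := fun j => Nat.rec ⟨(σ₀, 0), hσ₀⟩
    (fun j s => ⟨(ss j s, max (nn j s) (mm j s)), p4 j s⟩) j
  have hst' : ∀ j, st (j + 1) = ⟨(ss j (st j), max (nn j (st j)) (mm j (st j))), p4 j (st j)⟩ :=
    fun j => rfl
  set σs : ℕ → List Bool → Bool := fun j => (st j).1.1 with hσs
  set n : ℕ → ℕ := fun j => nn j (st j) with hn
  set m : ℕ → ℕ := fun j => mm j (st j) with hm
  have f1 : ∀ j w, w.length < n j → σs (j + 1) w = σs j w := by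
    intro j w hw
    exact p3 j (st j) w hw
  have f2 : ∀ j, n j < n (j + 1) := by
    intro j
    have := p1 (j + 1) (st (j + 1))
    rw [hst'] at this
    exact lt_of_le_of_lt (le_max_left _ _) this
  have f3 : ∀ j, m j < n (j + 1) := by
    intro j
    have := p1 (j + 1) (st (j + 1))
    rw [hst'] at this
    exact lt_of_le_of_lt (le_max_right _ _) this
  have f4 : ∀ j, j ≤ n j := fun j => p2 j (st j)
  have hmono : StrictMono n := strictMono_nat_of_lt_succ f2
  have f5 : ∀ j i w, j ≤ i → w.length < n j → σs i w = σs j w := by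
    intro j i w hji hw
    induction i, hji using Nat.le_induction with
    | base => rfl
    | succ i hi ih =>
      rw [f1 i w (lt_of_lt_of_le hw (hmono.monotone hi)), ih]
  let σ : List Bool → Bool := fun w => σs (w.length + 1) w
  have f6 : ∀ j w, w.length < n j → σ w = σs j w := by
    intro j w hw
    change σs (w.length + 1) w = σs j w
    rcases le_total j (w.length + 1) with h | h
    · exact f5 j _ w h hw
    · exact (f5 (w.length + 1) j w h (lt_of_lt_of_le (Nat.lt_succ_self _) (f4 _))).symm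
  obtain ⟨O, hO⟩ := h1 A hA σ
  refine ⟨σ, O, hO, ?_, ?_⟩
  · intro z
    obtain ⟨l, hl⟩ := hZ z
    refine hl (σs (l + 1)) σ (fun w hw => (f6 (l + 1) w ?_).symm) ((st (l + 1)).2 z)
    have := f4 (l + 1)
    omega
  · intro i M
    refine ⟨n (Nat.pair i M), le_trans (Nat.right_le_pair i M) (f4 _), ?_⟩
    have key := p5 (Nat.pair i M) (st (Nat.pair i M)) σ O (fun w hw => ?_) hO
    · rw [Nat.unpair_pair] at key
      exact key
    · have := f6 (Nat.pair i M + 1) w (lt_of_le_of_lt hw (f3 _))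
      exact this

end Pool.Agent.H54.PW.LIM
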